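import Pool.Agent.Helper791_RSA.Asm
import Pool.Agent.Helper791_RSA.K

/-!
# MP_669328_pr: the asymptotic variance of the jamming count of r-mers on the one-dimensional lattice

`free r U`: the starting sites of the blocks of `r` consecutive sites that are contained in the set `U` of
uncovered sites. `placements r t U`: the law of the number of `r`-mers placed in `t` steps, each placement being
uniform among the blocks that are still entirely uncovered (nothing happens when there is none).
`jamCount r n = placements r n {1, ..., n}` is the law of `C_n` (every placement covers `r` new sites, so the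
process has stopped after `n` steps). `hh r x = x + x²/2 + ... + x^(r-1)/(r-1)`,
`gg r x = exp(-2 hh r x) ∫_0^x exp(2 hh r t) dt`; the constant `a = gg r 1` is the limit of `E[C_n]/n`.
-/

set_option autoImplicit false

namespace Pool.Agent.Results.MP_669328_pr.JammingVariance

open Filter Topology MeasureTheory ProbabilityTheory
open Pool.Agent.Helper791.RSA

/-- For every `r ≥ 2`,
`Var(C_n)/n → a (1 - a) + 2 ∫_0^1 [exp(-2 (h(1) - h(x))) (1 + x^(r-1) g(x)/(1-x))² - a²/(1-x)²] dx`,
where `h = hh r`, `g = gg r`, `a = g(1)`; the integrand is integrable. -/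
theorem result (r : ℕ) (hr : 2 ≤ r) :
    IntervalIntegrable (fun x : ℝ => Real.exp (-2 * (hh r 1 - hh r x)) *
        (1 + x ^ (r - 1) * gg r x / (1 - x)) ^ 2 - (gg r 1) ^ 2 / (1 - x) ^ 2) volume 0 1 ∧
    Tendsto (fun n : ℕ => Var[fun k : ℕ => (k : ℝ); (jamCount r n).toMeasure] / n) atTop
      (𝓝 (gg r 1 * (1 - gg r 1) + 2 * ∫ x in (0 : ℝ)..1, (Real.exp (-2 * (hh r 1 - hh r x)) *
        (1 + x ^ (r - 1) * gg r x / (1 - x)) ^ 2 - (gg r 1) ^ 2 / (1 - x) ^ 2))) := by
  have e : ∀ x : ℝ, Real.exp (-2 * (hh r 1 - hh r x)) *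
        (1 + x ^ (r - 1) * gg r x / (1 - x)) ^ 2 - (gg r 1) ^ 2 / (1 - x) ^ 2 = integrand r x := by
    intro x
    unfold integrand aa
    rw [show -2 * (hh r 1 - hh r x) = 2 * hh r x - 2 * hh r 1 by ring]
  simp only [e]
  exact ⟨integrand_integrable r hr, final r hr⟩

end Pool.Agent.Results.MP_669328_pr.JammingVariance
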